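import Pool.Agent.H43.Sing.CSt

/-! # Singmaster, centre region: the local count -/

namespace Pool.Agent.H43.Sing

open Metric

theorem loc (W : CWinSt) (Z : CZeroSt) : CLocSt := by
  intro x0 η hx0 hx1 hη
  obtain ⟨I, r1, L1, hr1, hL1, hW⟩ := W x0 η hx0 hx1 hη
  obtain ⟨K, r2, L2, hr2, hL2, hZ⟩ := Z x0 I hx0 hx1
  set r : ℝ := min r1 r2 with hr
  have hr0 : 0 < r := lt_min hr1 hr2
  have hrr1 : r ≤ r1 := min_le_left _ _
  have hrr2 : r ≤ r2 := min_le_right _ _
  have hK0 : (0 : ℝ) ≤ K := Nat.cast_nonneg K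
  refine ⟨r, (2 * r + 1) * K, max L1 L2, hr0, by positivity,
    le_trans hL1 (le_max_left _ _), ?_⟩
  intro t S hL hS
  have hLL1 : L1 ≤ Real.log t := le_trans (le_max_left _ _) hL
  have hLL2 : L2 ≤ Real.log t := le_trans (le_max_right _ _) hL
  set L : ℝ := Real.log t with hLdef
  have hLge1 : 1 ≤ L := le_trans hL1 hLL1
  have hLpos : 0 < L := by linarith
  set h : ℝ := L ^ (-η) with hh
  have hh0 : 0 < h := Real.rpow_pos_of_pos hLpos _
  have hinv : L ^ η * h = 1 := by
    rw [hh, ← Real.rpow_add hLpos, add_neg_cancel, Real.rpow_zero]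
  have hLη : 1 ≤ L ^ η := Real.one_le_rpow hLge1 hη.le
  set kk : ℕ × ℕ → ℕ := fun q => ⌊((q.1 : ℝ) / q.2 - (x0 - r)) / h⌋₊ with hkk
  set N : ℕ := ⌊2 * r / h⌋₊ with hN
  have hpos : ∀ q ∈ S, 0 ≤ (q.1 : ℝ) / q.2 - (x0 - r) ∧ (q.1 : ℝ) / q.2 - (x0 - r) ≤ 2 * r := by
    intro q hq
    have h1 := abs_le.1 (hS q hq).2.2.2
    constructor <;> linarith [h1.1, h1.2]
  have hmaps : ∀ q ∈ S, kk q ∈ Finset.range (N + 1) := by
    intro q hq
    rw [Finset.mem_range]
    exact Nat.lt_succ_of_le (Nat.floor_le_floor (div_le_div_of_nonneg_right (hpos q hq).2 hh0.le))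
  have hfib : ∀ k ∈ Finset.range (N + 1), (S.filter (fun q => kk q = k)).card ≤ K := by
    intro k _
    rcases (S.filter (fun q => kk q = k)).eq_empty_or_nonempty with he | hne
    · rw [he]
      simp
    · set Sk := S.filter (fun q => kk q = k) with hSk
      set c : ℝ := x0 - r + k * h with hc
      have hbd : ∀ q ∈ Sk, c ≤ (q.1 : ℝ) / q.2 ∧ (q.1 : ℝ) / q.2 ≤ c + h := by
        intro q hq
        obtain ⟨h1, h2⟩ := Finset.mem_filter.1 hq
        have h3 : 0 ≤ ((q.1 : ℝ) / q.2 - (x0 - r)) / h := div_nonneg (hpos q h1).1 hh0.le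
        have h4 := Nat.floor_le h3
        have h5 := Nat.lt_floor_add_one (((q.1 : ℝ) / q.2 - (x0 - r)) / h)
        have h6 : ⌊((q.1 : ℝ) / q.2 - (x0 - r)) / h⌋₊ = k := h2
        rw [h6] at h4 h5
        rw [le_div_iff₀ hh0] at h4
        rw [div_lt_iff₀ hh0] at h5
        constructor
        · linarith
        · nlinarith
      obtain ⟨q0, hq0⟩ := hne
      have hc1 : |c - x0| ≤ r1 := by
        have h1 := (hbd q0 hq0).1
        have h2 := abs_le.1 (hS q0 (Finset.mem_filter.1 hq0).1).2.2.2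
        have h3 : 0 ≤ (k : ℝ) * h := by positivity
        rw [abs_le]
        constructor
        · linarith
        · linarith [h2.2]
      have hsol : IsSolSet t c (Real.log t ^ (-η)) Sk := by
        intro q hq
        obtain ⟨h1, h2, h3, h4⟩ := hS q (Finset.mem_filter.1 hq).1
        refine ⟨h1, h2, h3, ?_⟩
        have h5 := hbd q hq
        rw [abs_of_nonneg (by linarith [h5.1])]
        have h6 : h = Real.log t ^ (-η) := rfl
        rw [← h6]
        linarith [h5.2]
      obtain ⟨p, hp0, hp⟩ := hW t c Sk hLL1 hc1 hsol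
      refine hZ t Sk (fun u => (p u : ℝ)) hLL2 ?_ ?_ ?_
      · intro h0
        apply hp0
        funext u
        have := congrFun h0 u
        simpa using this
      · intro q hq
        obtain ⟨h1, h2, h3, h4⟩ := hS q (Finset.mem_filter.1 hq).1
        exact ⟨h1, h2, h3, le_trans h4 hrr2⟩
      · intro q hq
        have := hp q hq
        exact_mod_cast this
  have hcard : (S.card : ℝ) ≤ ((N : ℝ) + 1) * K := by
    rw [Finset.card_eq_sum_card_fiberwise hmaps]
    push_cast
    refine le_trans (Finset.sum_le_sum (fun k hk => (Nat.cast_le (α := ℝ)).2 (hfib k hk))) ?_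
    rw [Finset.sum_const, Finset.card_range, nsmul_eq_mul]
    push_cast
    exact le_rfl
  have hNb : (N : ℝ) ≤ 2 * r * L ^ η := by
    have h1 : (N : ℝ) ≤ 2 * r / h := Nat.floor_le (by positivity)
    have h2 : 2 * r / h = 2 * r * L ^ η := by
      rw [div_eq_iff hh0.ne', mul_assoc, hinv, mul_one]
    rw [h2] at h1
    exact h1
  calc (S.card : ℝ) ≤ ((N : ℝ) + 1) * K := hcard
    _ ≤ (2 * r * L ^ η + L ^ η) * K := mul_le_mul_of_nonneg_right (by linarith) hK0
    _ = (2 * r + 1) * K * L ^ η := by ring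

end Pool.Agent.H43.Sing
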